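import Pool.Agent.Helper95.Lin.GoalsH

/-! # Packet LEV: domination of the Levi form -/

open Complex Metric Set Filter Topology MeasureTheory
open scoped ContDiff ComplexConjugate ComplexOrder

namespace Pool.Agent.Helper9.Lin

open Pool.Agent.Helper95.Lin

section basics

variable {n : ℕ}

theorem hess_congr {φ ψ : Cn n → ℝ} {x : Cn n} (h : φ =ᶠ[𝓝 x] ψ) (u v : Cn n) :
    hess φ x u v = hess ψ x u v := by
  unfold hess
  have h1 : (fun y => fderiv ℝ φ y v) =ᶠ[𝓝 x] fun y => fderiv ℝ ψ y v := by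
    filter_upwards [h.fderiv (𝕜 := ℝ)] with y hy
    rw [hy]
  rw [h1.fderiv_eq]

theorem lev_congr {φ ψ : Cn n → ℝ} {x : Cn n} (h : φ =ᶠ[𝓝 x] ψ) (e : Cn n) :
    lev φ x e = lev ψ x e := by
  unfold lev
  rw [hess_congr h, hess_congr h]

theorem dd_congr {φ ψ : Cn n → ℝ} {x : Cn n} (h : φ =ᶠ[𝓝 x] ψ) (a : Fin n × Bool) :
    dd φ a x = dd ψ a x := by
  unfold dd
  rw [h.fderiv_eq]

theorem dd_congr' {φ ψ : Cn n → ℝ} {x : Cn n} (h : φ =ᶠ[𝓝 x] ψ) (a : Fin n × Bool) :
    dd φ a =ᶠ[𝓝 x] dd ψ a := by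
  filter_upwards [h.fderiv (𝕜 := ℝ)] with y hy
  unfold dd
  rw [hy]

theorem Lop_congr {P : Fin n × Bool → Fin n × Bool → Cn n → ℝ} {φ ψ : Cn n → ℝ} {x : Cn n}
    (h : φ =ᶠ[𝓝 x] ψ) : Lop P φ x = Lop P ψ x := by
  unfold Lop
  refine Finset.sum_congr rfl fun a _ => Finset.sum_congr rfl fun b _ => ?_
  rw [dd_congr (dd_congr' h b) a]

theorem lev_zero (x e : Cn n) : lev (0 : Cn n → ℝ) x e = 0 := by
  unfold lev hess
  simp

theorem Lop_zero (P : Fin n × Bool → Fin n × Bool → Cn n → ℝ) (x : Cn n) :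
    Lop P (0 : Cn n → ℝ) x = 0 := by
  unfold Lop
  have h1 : ∀ b : Fin n × Bool, dd (0 : Cn n → ℝ) b = 0 := by
    intro b
    funext y
    unfold dd
    simp
  simp [h1]

theorem lev_off {ψ : Cn n → ℝ} {x : Cn n} (h : x ∉ tsupport ψ) (e : Cn n) : lev ψ x e = 0 := by
  rw [notMem_tsupport_iff_eventuallyEq] at h
  rw [lev_congr h, lev_zero]

theorem Lop_off {P : Fin n × Bool → Fin n × Bool → Cn n → ℝ} {ψ : Cn n → ℝ} {x : Cn n}
    (h : x ∉ tsupport ψ) : Lop P ψ x = 0 := by
  rw [notMem_tsupport_iff_eventuallyEq] at h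
  rw [Lop_congr h, Lop_zero]

theorem contDiff_fderiv_apply {ψ : Cn n → ℝ} (h : ContDiff ℝ ∞ ψ) (v : Cn n) :
    ContDiff ℝ ∞ fun y => fderiv ℝ ψ y v :=
  (h.fderiv_right (m := ∞) (by simp)).clm_apply contDiff_const

theorem continuous_lev {ψ : Cn n → ℝ} (h : ContDiff ℝ ∞ ψ) (e : Cn n) :
    Continuous fun x => lev ψ x e := by
  unfold lev hess
  exact (contDiff_fderiv_apply (contDiff_fderiv_apply h e) e).continuous.add
    (contDiff_fderiv_apply (contDiff_fderiv_apply h (I • e)) (I • e)).continuous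

theorem continuousOn_Lop {M : Set (Cn n)} {P : Fin n × Bool → Fin n × Bool → Cn n → ℝ}
    (hP : ∀ a b, ContDiffOn ℝ ∞ (P a b) M) {ψ : Cn n → ℝ} (h : ContDiff ℝ ∞ ψ) :
    ContinuousOn (Lop P ψ) M := by
  unfold Lop
  refine continuousOn_finsetSum _ fun a _ => continuousOn_finsetSum _ fun b _ => ?_
  refine (hP a b).continuousOn.mul (Continuous.continuousOn ?_)
  exact (contDiff_fderiv_apply (contDiff_fderiv_apply h (rb b)) (rb a)).continuous

/-- Integrals over `M` of functions that vanish off the compact set `K`. -/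
theorem int_eq {M K : Set (Cn n)} (hM : IsOpen M) (hKM : K ⊆ M) {f : Cn n → ℝ}
    (hf : ∀ x, x ∉ K → f x = 0) : ∫ x in M, f x = ∫ x in K, f x :=
  setIntegral_eq_of_subset_of_forall_sdiff_eq_zero hM.measurableSet hKM fun x hx => hf x hx.2

end basics

theorem lev_dom (hMOLL : S_MOLL) (hIBP : S_IBP) (hLEVIBP : S_LEVIBP) : S_LEV := by
  intro n M Γ _ T P h φ hφ hφ0
  have hM : IsOpen M := h.act.isOpen
  obtain ⟨K, hKdef⟩ : ∃ K : Set (Cn n), K = tsupport φ := ⟨_, rfl⟩
  have hKc : IsCompact K := hKdef ▸ hφ.2.1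
  have hKM : K ⊆ M := hKdef ▸ hφ.2.2
  have hKm : MeasurableSet K := hKc.measurableSet
  obtain ⟨C, hC, hell⟩ := h.ell K hKM hKc
  refine ⟨C, hC, ?_⟩
  intro u hu hp ψ hψ hψφ e he
  have hsub : tsupport ψ ⊆ K := by
    rw [hKdef]
    refine closure_mono fun x hx => ?_
    rw [Function.mem_support] at hx ⊢
    intro h0
    have := hψφ x
    rw [h0] at this
    exact hx (abs_eq_zero.1 (le_antisymm this (abs_nonneg _)))
  have hψoff : ∀ x, x ∉ K → ψ x = 0 := fun x hx => image_eq_zero_of_notMem_tsupport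
    fun h => hx (hsub h)
  have hφoff : ∀ x, x ∉ K → φ x = 0 := fun x hx => image_eq_zero_of_notMem_tsupport
    fun h => hx (hKdef ▸ h)
  have hlψ : ∀ x, x ∉ K → lev ψ x e = 0 := fun x hx => lev_off (fun h => hx (hsub h)) e
  have hLφ : ∀ x, x ∉ K → Lop P φ x = 0 := fun x hx => Lop_off (fun h => hx (hKdef ▸ h))
  have cl : ContinuousOn (fun x => lev ψ x e) K := (continuous_lev hψ.1 e).continuousOn
  have cL : ContinuousOn (Lop P φ) K := (continuousOn_Lop h.smooth hφ.1).mono hKM
  have cu : ContinuousOn u K := hu.mono hKM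
  rw [int_eq hM hKM (f := fun x => u x * lev ψ x e) fun x hx => by
    simp only [hlψ x hx, mul_zero]]
  rw [int_eq hM hKM (f := fun x => u x * Lop P φ x) fun x hx => by
    simp only [hLφ x hx, mul_zero]]
  obtain ⟨A, hA⟩ : ∃ A : ℝ, A = ∫ x in K, |lev ψ x e| := ⟨_, rfl⟩
  obtain ⟨B, hB⟩ : ∃ B : ℝ, B = ∫ x in K, |Lop P φ x| := ⟨_, rfl⟩
  have hA0 : 0 ≤ A := by
    rw [hA]
    exact integral_nonneg fun x => abs_nonneg _
  have hB0 : 0 ≤ B := by
    rw [hB]
    exact integral_nonneg fun x => abs_nonneg _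
  have key : ∀ ε > 0, |∫ x in K, u x * lev ψ x e| ≤
      C * (∫ x in K, u x * Lop P φ x) + ε * (A + C * B) := by
    intro ε hε
    obtain ⟨v, hv, hvu, hvl⟩ := hMOLL M hM u hu hp K hKM hKc ε hε
    have cv : ContinuousOn v K := hv.continuous.continuousOn
    -- the inequality for `v`
    have h1 : ∫ x in K, v x * lev ψ x e = ∫ x in K, ψ x * lev v x e := by
      rw [← int_eq hM hKM (f := fun x => v x * lev ψ x e) fun x hx => by
        simp only [hlψ x hx, mul_zero]]
      rw [← int_eq hM hKM (f := fun x => ψ x * lev v x e) fun x hx => by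
        simp only [hψoff x hx, zero_mul]]
      exact hLEVIBP M hM ψ v hψ hv.contDiffOn e
    have h2 : ∫ x in K, v x * Lop P φ x = ∫ x in K, φ x * Lop P v x := by
      rw [← int_eq hM hKM (f := fun x => v x * Lop P φ x) fun x hx => by
        simp only [hLφ x hx, mul_zero]]
      rw [← int_eq hM hKM (f := fun x => φ x * Lop P v x) fun x hx => by
        simp only [hφoff x hx, zero_mul]]
      exact hIBP M P hM h.smooth h.symm h.div φ v hφ hv.contDiffOn
    have clv : ContinuousOn (fun x => lev v x e) K := (continuous_lev hv e).continuousOn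
    have cLv : ContinuousOn (Lop P v) K := (continuousOn_Lop h.smooth hv).mono hKM
    have cψ : ContinuousOn ψ K := hψ.1.continuous.continuousOn
    have cφ : ContinuousOn φ K := hφ.1.continuous.continuousOn
    have h3 : |∫ x in K, v x * lev ψ x e| ≤ C * ∫ x in K, v x * Lop P φ x := by
      rw [h1, h2, ← integral_const_mul]
      refine (abs_integral_le_integral_abs).trans ?_
      refine setIntegral_mono_on ?_ ?_ hKm ?_
      · exact ((cψ.mul clv).abs).integrableOn_compact hKc
      · exact (continuousOn_const.mul (cφ.mul cLv)).integrableOn_compact hKc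
      · intro x hx
        obtain ⟨h4, h5⟩ := hell v hv.contDiffOn x hx (hvl x hx)
        rw [abs_mul, abs_of_nonneg (hvl x hx e)]
        calc |ψ x| * lev v x e ≤ φ x * (C * Lop P v x) :=
              mul_le_mul (hψφ x) (h5 e he) (hvl x hx e) (hφ0 x)
          _ = C * (φ x * Lop P v x) := by ring
    -- comparison of `u` and `v`
    have cmp : ∀ q : Cn n → ℝ, ContinuousOn q K →
        |(∫ x in K, u x * q x) - ∫ x in K, v x * q x| ≤ ε * ∫ x in K, |q x| := by
      intro q hq
      have i1 : IntegrableOn (fun x => u x * q x) K := (cu.mul hq).integrableOn_compact hKc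
      have i2 : IntegrableOn (fun x => v x * q x) K := (cv.mul hq).integrableOn_compact hKc
      rw [← integral_sub i1 i2, ← integral_const_mul]
      refine (abs_integral_le_integral_abs).trans ?_
      refine setIntegral_mono_on ?_ ?_ hKm ?_
      · exact (i1.sub i2).abs
      · exact (continuousOn_const.mul hq.abs).integrableOn_compact hKc
      · intro x hx
        rw [← sub_mul, abs_mul]
        refine mul_le_mul_of_nonneg_right ?_ (abs_nonneg _)
        rw [abs_sub_comm]
        exact hvu x hx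
    have h6 := cmp (fun x => lev ψ x e) cl
    have h7 := cmp (Lop P φ) cL
    rw [← hA] at h6
    rw [← hB] at h7
    have h8 : |∫ x in K, u x * lev ψ x e| ≤ |∫ x in K, v x * lev ψ x e| + ε * A := by
      have := abs_sub_abs_le_abs_sub (∫ x in K, u x * lev ψ x e) (∫ x in K, v x * lev ψ x e)
      linarith
    have h9 : C * ∫ x in K, v x * Lop P φ x ≤ C * ((∫ x in K, u x * Lop P φ x) + ε * B) := by
      refine mul_le_mul_of_nonneg_left ?_ hC
      have := (abs_le.1 h7).1
      linarith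
    nlinarith
  refine le_of_forall_pos_le_add fun δ hδ => ?_
  have hpos : 0 < A + C * B + 1 := by positivity
  refine (key (δ / (A + C * B + 1)) (by positivity)).trans ?_
  have : δ / (A + C * B + 1) * (A + C * B) ≤ δ := by
    rw [div_mul_eq_mul_div, div_le_iff₀ hpos]
    nlinarith
  linarith

end Pool.Agent.Helper9.Lin
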