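import Pool.Agent.Helper95.Lin.GoalsH

/-! # Packet LOGINT: local integrability of `log F` -/

open Complex Metric Set Filter Topology MeasureTheory
open scoped ContDiff ComplexConjugate ComplexOrder ENNReal

namespace Pool.Agent.Helper9.Lin

open Pool.Agent.Helper95.Lin

/-- Multiplication by a complex number of modulus one preserves the volume. -/
theorem mp_rot {n : ℕ} (ζ : ℂ) (hζ : ‖ζ‖ = 1) :
    MeasurePreserving (fun y : Cn n => ζ • y) volume volume := by
  have h1 : MeasurePreserving (fun z : ℂ => ζ * z) volume volume := by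
    obtain ⟨c, hc⟩ : ∃ c : Circle, (c : ℂ) = ζ := ⟨⟨ζ, mem_sphere_zero_iff_norm.2 hζ⟩, rfl⟩
    have h := (rotation c).measurePreserving
    have e : (⇑(rotation c) : ℂ → ℂ) = fun z : ℂ => ζ * z := by
      funext z
      rw [rotation_apply, hc]
    rw [e] at h
    exact h
  have h2 := volume_preserving_pi (fun _ : Fin n => h1)
  exact h2

theorem setIntegral_rot {n : ℕ} (ζ : ℂ) (hζ : ‖ζ‖ = 1) (r : ℝ) (f : Cn n → ℝ) :
    ∫ y in closedBall (0 : Cn n) r, f (ζ • y) = ∫ y in closedBall (0 : Cn n) r, f y := by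
  have hne : ζ ≠ 0 := by
    rintro rfl
    simp at hζ
  have h1 := (mp_rot (n := n) ζ hζ).setIntegral_preimage_emb
    ((Homeomorph.smulOfNeZero ζ hne).measurableEmbedding) f (closedBall 0 r)
  have h2 : (fun y : Cn n => ζ • y) ⁻¹' closedBall 0 r = closedBall 0 r := by
    ext y
    simp [norm_smul, hζ]
  rw [h2] at h1
  exact h1

theorem setIntegral_transl {n : ℕ} (x : Cn n) (r : ℝ) (f : Cn n → ℝ) :
    ∫ y in closedBall (0 : Cn n) r, f (x + y) = ∫ y in closedBall x r, f y := by
  have h1 := (measurePreserving_add_left (volume : Measure (Cn n)) x).setIntegral_preimage_emb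
    ((Homeomorph.addLeft x).measurableEmbedding) f (closedBall x r)
  have h2 : (fun y : Cn n => x + y) ⁻¹' closedBall x r = closedBall 0 r := by
    ext y
    simp [dist_eq_norm]
  rw [h2] at h1
  exact h1

/-- The sub-mean value inequality on balls. -/
theorem ball_sub {n : ℕ} {M : Set (Cn n)} {u : Cn n → ℝ} (hu : ContinuousOn u M)
    (hp : PshOn u M) {x : Cn n} {r : ℝ} (hr : 0 ≤ r) (hB : closedBall x r ⊆ M) :
    u x * volume.real (closedBall x r) ≤ ∫ y in closedBall x r, u y := by
  have hpi : (0 : ℝ) < 2 * Real.pi := by positivity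
  have hmem : ∀ θ : ℝ, ∀ y ∈ closedBall (0 : Cn n) r, x + circleMap 0 1 θ • y ∈ closedBall x r := by
    intro θ y hy
    rw [mem_closedBall_zero_iff] at hy
    rw [mem_closedBall, dist_eq_norm, add_sub_cancel_left, norm_smul]
    simpa using hy
  have hcont : ContinuousOn (fun p : ℝ × Cn n => u (x + circleMap 0 1 p.1 • p.2))
      (univ ×ˢ closedBall (0 : Cn n) r) := by
    refine hu.comp (by fun_prop) ?_
    rintro ⟨θ, y⟩ ⟨-, hy⟩
    exact hB (hmem θ y hy)
  have hint : Integrable (Function.uncurry fun (θ : ℝ) (y : Cn n) => u (x + circleMap 0 1 θ • y))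
      ((volume.restrict (Ioc 0 (2 * Real.pi))).prod (volume.restrict (closedBall (0 : Cn n) r))) := by
    rw [Measure.prod_restrict]
    have h1 : IntegrableOn (fun p : ℝ × Cn n => u (x + circleMap 0 1 p.1 • p.2))
        (Icc 0 (2 * Real.pi) ×ˢ closedBall (0 : Cn n) r) (volume.prod volume) := by
      refine ContinuousOn.integrableOn_compact ?_ ?_
      · exact isCompact_Icc.prod (isCompact_closedBall _ _)
      · exact hcont.mono (prod_mono (subset_univ _) subset_rfl)
    exact h1.mono_set (prod_mono Ioc_subset_Icc_self subset_rfl)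
  have hswap := integral_integral_swap hint
  have hrot : ∀ θ : ℝ, ∫ y in closedBall (0 : Cn n) r, u (x + circleMap 0 1 θ • y) =
      ∫ y in closedBall x r, u y := by
    intro θ
    rw [← setIntegral_transl x r u]
    exact setIntegral_rot (circleMap 0 1 θ) (by simp) r fun y => u (x + y)
  simp only [hrot] at hswap
  rw [setIntegral_const, Real.volume_real_Ioc_of_le hpi.le, sub_zero, smul_eq_mul] at hswap
  have hpt : ∀ y ∈ closedBall (0 : Cn n) r, 2 * Real.pi * u x ≤
      ∫ θ in Ioc 0 (2 * Real.pi), u (x + circleMap 0 1 θ • y) := by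
    intro y hy
    have h1 := hp x (hB (mem_closedBall_self hr)) y (fun ζ hζ => by
      apply hB
      rw [mem_closedBall_zero_iff] at hy
      rw [mem_closedBall, dist_eq_norm, add_sub_cancel_left, norm_smul]
      calc ‖ζ‖ * ‖y‖ ≤ 1 * r := by gcongr
        _ = r := one_mul r)
    rw [Real.circleAverage_def, smul_eq_mul, intervalIntegral.integral_of_le hpi.le] at h1
    calc 2 * Real.pi * u x ≤ 2 * Real.pi * ((2 * Real.pi)⁻¹ *
          ∫ θ in Ioc 0 (2 * Real.pi), u (x + circleMap 0 1 θ • y)) := by gcongr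
      _ = _ := by field_simp
  have hmono : ∫ _ in closedBall (0 : Cn n) r, 2 * Real.pi * u x ≤
      ∫ y in closedBall (0 : Cn n) r, ∫ θ in Ioc 0 (2 * Real.pi), u (x + circleMap 0 1 θ • y) := by
    refine setIntegral_mono_on ?_ ?_ measurableSet_closedBall hpt
    · exact integrableOn_const (isCompact_closedBall _ _).measure_lt_top.ne
    · exact hint.integral_prod_right
  rw [setIntegral_const, smul_eq_mul, ← hswap] at hmono
  have hvol : volume.real (closedBall (0 : Cn n) r) = volume.real (closedBall x r) := by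
    rw [Measure.real, Measure.real, Measure.addHaar_closedBall_center volume x r]
  rw [hvol] at hmono
  have : 2 * Real.pi * (u x * volume.real (closedBall x r)) ≤
      2 * Real.pi * ∫ y in closedBall x r, u y := by
    calc 2 * Real.pi * (u x * volume.real (closedBall x r)) =
        volume.real (closedBall x r) * (2 * Real.pi * u x) := by ring
      _ ≤ _ := hmono
  exact le_of_mul_le_mul_left this hpi

/-- The function `C' - log t`, with value `∞` at `t = 0`. -/
noncomputable def phi (C' : ℝ) (t : ℝ) : ℝ≥0∞ :=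
  if t = 0 then ⊤ else ENNReal.ofReal (C' - Real.log t)

theorem phi_meas (C' : ℝ) : Measurable (phi C') := by
  unfold phi
  refine Measurable.ite (measurableSet_singleton 0) measurable_const ?_
  exact ENNReal.measurable_ofReal.comp (measurable_const.sub Real.measurable_log)

/-- `(t^s - 1)/s → log t`. -/
theorem tendsto_phi (C' : ℝ) {t : ℝ} (ht : 0 ≤ t) :
    Tendsto (fun k : ℕ => ENNReal.ofReal (C' - ((k : ℝ) + 1) * (t ^ (1 / ((k : ℝ) + 1)) - 1)))
      atTop (𝓝 (phi C' t)) := by
  unfold phi
  split_ifs with h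
  · rw [h]
    have h1 : ∀ k : ℕ, C' - ((k : ℝ) + 1) * ((0 : ℝ) ^ (1 / ((k : ℝ) + 1)) - 1) =
        C' + 1 + (k : ℝ) := by
      intro k
      rw [Real.zero_rpow (by positivity)]
      ring
    simp only [h1]
    refine ENNReal.tendsto_ofReal_atTop.comp ?_
    exact tendsto_atTop_add_const_left _ _ tendsto_natCast_atTop_atTop
  · have htp : 0 < t := lt_of_le_of_ne ht (Ne.symm h)
    refine ENNReal.tendsto_ofReal ?_
    refine tendsto_const_nhds.sub ?_
    have hd : HasDerivAt (fun s : ℝ => t ^ s) (Real.log t) 0 := by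
      have := (hasDerivAt_id (0 : ℝ)).const_rpow htp
      simpa using this
    have h2 := hd.tendsto_slope
    have h3 : Tendsto (fun k : ℕ => 1 / ((k : ℝ) + 1)) atTop (𝓝[≠] 0) := by
      rw [tendsto_nhdsWithin_iff]
      exact ⟨tendsto_one_div_add_atTop_nhds_zero_nat, Eventually.of_forall fun k => by
        simp only [mem_compl_iff, mem_singleton_iff]
        positivity⟩
    have h4 := h2.comp h3
    refine h4.congr fun k => ?_
    simp only [Function.comp, slope, vsub_eq_sub, smul_eq_mul, sub_zero, Real.rpow_zero]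
    field_simp

/-- The main estimate on a ball. -/
theorem ball_log {n : ℕ} {M : Set (Cn n)} {F : Cn n → ℝ} (hF : ContinuousOn F M)
    (h0 : ∀ x ∈ M, 0 ≤ F x) (hp : ∀ s : ℝ, 0 < s → s ≤ 1 → PshOn (fun x => F x ^ s) M)
    {x : Cn n} {r : ℝ} (hr : 0 ≤ r) (hB : closedBall x r ⊆ M) (hx : 0 < F x) :
    (∀ᵐ y ∂(volume.restrict (closedBall x r)), F y ≠ 0) ∧
      IntegrableOn (fun y => Real.log (F y)) (closedBall x r) := by
  have hFB : ContinuousOn F (closedBall x r) := hF.mono hB
  have hcpt : IsCompact (closedBall x r) := isCompact_closedBall _ _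
  obtain ⟨C₀, hC₀⟩ := (hcpt.bddAbove_image hFB)
  obtain ⟨C, hC⟩ : ∃ C : ℝ, C = max C₀ 1 := ⟨_, rfl⟩
  have hC1 : 1 ≤ C := hC ▸ le_max_right _ _
  have hFC : ∀ y ∈ closedBall x r, F y ≤ C := fun y hy =>
    (hC₀ (mem_image_of_mem F hy)).trans (hC ▸ le_max_left _ _)
  have hFm : AEMeasurable F (volume.restrict (closedBall x r)) :=
    hFB.aemeasurable measurableSet_closedBall
  -- the pointwise lower bound
  have hl0 : ∀ k : ℕ, ∀ y ∈ closedBall x r,
      0 ≤ (C - 1) - ((k : ℝ) + 1) * (F y ^ (1 / ((k : ℝ) + 1)) - 1) := by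
    intro k y hy
    have hk : (0 : ℝ) < (k : ℝ) + 1 := by positivity
    have h1 : F y ^ (1 / ((k : ℝ) + 1)) ≤ C ^ (1 / ((k : ℝ) + 1)) :=
      Real.rpow_le_rpow (h0 y (hB hy)) (hFC y hy) (by positivity)
    have h2 : C ^ (1 / ((k : ℝ) + 1)) ≤ 1 + (1 / ((k : ℝ) + 1)) * (C - 1) := by
      have := rpow_one_add_le_one_add_mul_self (s := C - 1) (by linarith)
        (p := 1 / ((k : ℝ) + 1)) (by positivity) (by
          rw [div_le_one hk]
          linarith [Nat.cast_nonneg (α := ℝ) k])
      simpa using this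
    have h3 : ((k : ℝ) + 1) * (F y ^ (1 / ((k : ℝ) + 1)) - 1) ≤
        ((k : ℝ) + 1) * ((1 / ((k : ℝ) + 1)) * (C - 1)) := by
      refine mul_le_mul_of_nonneg_left ?_ hk.le
      linarith
    have h4 : ((k : ℝ) + 1) * ((1 / ((k : ℝ) + 1)) * (C - 1)) = C - 1 := by
      field_simp
    linarith
  have hcts : ∀ k : ℕ, ContinuousOn (fun y => F y ^ (1 / ((k : ℝ) + 1))) (closedBall x r) :=
    fun k => hFB.rpow_const fun y _ => Or.inr (by positivity)
  have hint1 : ∀ k : ℕ, IntegrableOn (fun y => F y ^ (1 / ((k : ℝ) + 1))) (closedBall x r) :=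
    fun k => (hcts k).integrableOn_compact hcpt
  -- the bound for the integrals
  have hb : ∀ k : ℕ, ∫⁻ y in closedBall x r, ENNReal.ofReal
      ((C - 1) - ((k : ℝ) + 1) * (F y ^ (1 / ((k : ℝ) + 1)) - 1)) ≤
      ENNReal.ofReal (volume.real (closedBall x r) * ((C - 1) - Real.log (F x))) := by
    intro k
    have hk : (0 : ℝ) < (k : ℝ) + 1 := by positivity
    have hci : IntegrableOn (fun _ : Cn n => (1 : ℝ)) (closedBall x r) :=
      integrableOn_const hcpt.measure_lt_top.ne
    have hci' : IntegrableOn (fun _ : Cn n => C - 1) (closedBall x r) :=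
      integrableOn_const hcpt.measure_lt_top.ne
    rw [← ofReal_integral_eq_lintegral_ofReal]
    · refine ENNReal.ofReal_le_ofReal ?_
      have hi1 : IntegrableOn (fun y => F y ^ (1 / ((k : ℝ) + 1)) - 1) (closedBall x r) :=
        (hint1 k).sub hci
      have hi2 : IntegrableOn (fun y => ((k : ℝ) + 1) * (F y ^ (1 / ((k : ℝ) + 1)) - 1))
        (closedBall x r) := hi1.const_mul _
      rw [integral_sub hci' hi2, integral_const_mul,
        integral_sub (hint1 k) hci, setIntegral_const, setIntegral_const, smul_eq_mul, smul_eq_mul,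
        mul_one]
      have h1 := ball_sub (hF.rpow_const fun y _ => Or.inr (by positivity))
        (hp (1 / ((k : ℝ) + 1)) (by positivity) (by
          rw [div_le_one hk]
          linarith [Nat.cast_nonneg (α := ℝ) k])) hr hB
      have h2 : Real.log (F x) ≤ ((k : ℝ) + 1) * (F x ^ (1 / ((k : ℝ) + 1)) - 1) := by
        have h3 := Real.log_le_sub_one_of_pos (Real.rpow_pos_of_pos hx (1 / ((k : ℝ) + 1)))
        rw [Real.log_rpow hx] at h3
        have h4 := mul_le_mul_of_nonneg_left h3 hk.le
        have h5 : ((k : ℝ) + 1) * (1 / ((k : ℝ) + 1) * Real.log (F x)) = Real.log (F x) := by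
          field_simp
        linarith
      have hv : 0 ≤ volume.real (closedBall x r) := measureReal_nonneg
      have h6 := mul_le_mul_of_nonneg_left h1 hk.le
      have h7 := mul_le_mul_of_nonneg_left h2 hv
      nlinarith
    · exact hci'.sub (((hint1 k).sub hci).const_mul _)
    · exact (ae_restrict_iff' measurableSet_closedBall).2 (Eventually.of_forall (hl0 k))
  have hphim : AEMeasurable (fun y => phi (C - 1) (F y)) (volume.restrict (closedBall x r)) :=
    (phi_meas (C - 1)).comp_aemeasurable hFm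
  have hfat : ∫⁻ y in closedBall x r, phi (C - 1) (F y) ≤
      ENNReal.ofReal (volume.real (closedBall x r) * ((C - 1) - Real.log (F x))) := by
    have h1 : ∫⁻ y in closedBall x r, phi (C - 1) (F y) = ∫⁻ y in closedBall x r,
        liminf (fun k : ℕ => ENNReal.ofReal
          ((C - 1) - ((k : ℝ) + 1) * (F y ^ (1 / ((k : ℝ) + 1)) - 1))) atTop := by
      refine setLIntegral_congr_fun measurableSet_closedBall fun y hy => ?_
      exact (tendsto_phi (C - 1) (h0 y (hB hy))).liminf_eq.symm
    rw [h1]
    refine (lintegral_liminf_le' fun k => ?_).trans ?_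
    · refine ENNReal.measurable_ofReal.comp_aemeasurable ?_
      have := (hcts k).aemeasurable measurableSet_closedBall (μ := volume)
      exact aemeasurable_const.sub ((this.sub aemeasurable_const).const_mul _)
    · refine liminf_le_of_le (by isBoundedDefault) ?_
      intro b hb'
      obtain ⟨k, hk⟩ := hb'.exists
      exact hk.trans (hb k)
  have hlt : ∫⁻ y in closedBall x r, phi (C - 1) (F y) ≠ ⊤ :=
    (hfat.trans_lt ENNReal.ofReal_lt_top).ne
  have hae : ∀ᵐ y ∂(volume.restrict (closedBall x r)), F y ≠ 0 := by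
    filter_upwards [ae_lt_top' hphim hlt] with y hy hy0
    simp [phi, hy0] at hy
  refine ⟨hae, ?_⟩
  have hlogm : AEStronglyMeasurable (fun y => Real.log (F y)) (volume.restrict (closedBall x r)) :=
    (Real.measurable_log.comp_aemeasurable hFm).aestronglyMeasurable
  have hi : IntegrableOn (fun y => (C - 1) - Real.log (F y)) (closedBall x r) := by
    refine ⟨aestronglyMeasurable_const.sub hlogm, ?_⟩
    refine lt_of_le_of_lt ?_ (lt_top_iff_ne_top.2 hlt)
    refine lintegral_mono_ae ?_
    filter_upwards [hae, ae_restrict_mem measurableSet_closedBall] with y hy hyB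
    have hpos : 0 < F y := lt_of_le_of_ne (h0 y (hB hyB)) (Ne.symm hy)
    have h1 : Real.log (F y) ≤ C - 1 := by
      have := Real.log_le_sub_one_of_pos hpos
      linarith [hFC y hyB]
    rw [phi, if_neg hy, Real.enorm_of_nonneg (by linarith)]
  have hconst : IntegrableOn (fun _ : Cn n => C - 1) (closedBall x r) :=
    integrableOn_const hcpt.measure_lt_top.ne
  have := hconst.sub hi
  refine this.congr (Eventually.of_forall fun y => ?_)
  simp

theorem logint : S_LOGINT := by
  intro n M hM F hF h0 hp hU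
  have hloc : ∀ y ∈ M, ∃ x r, 0 ≤ r ∧ closedBall x r ⊆ M ∧ 0 < F x ∧ closedBall x r ∈ 𝓝 y := by
    intro y hy
    obtain ⟨ε, hε, hball⟩ := Metric.isOpen_iff.1 hM y hy
    obtain ⟨x, hx, hFx⟩ := hU (ball y (ε / 4)) ((ball_subset_ball (by linarith)).trans hball)
      isOpen_ball ⟨y, mem_ball_self (by positivity)⟩
    refine ⟨x, ε / 2, by positivity, ?_, hFx, ?_⟩
    · refine (closedBall_subset_ball' ?_).trans hball
      rw [mem_ball] at hx
      linarith
    · refine mem_of_superset (ball_mem_nhds y (ε := ε / 4) (by positivity)) ?_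
      intro z hz
      rw [mem_ball] at hx hz
      rw [mem_closedBall]
      have := dist_triangle z y x
      rw [dist_comm y x] at this
      linarith
  constructor
  · refine measure_null_of_locally_null _ ?_
    rintro y ⟨hy, -⟩
    obtain ⟨x, r, hr, hB, hx, hnb⟩ := hloc y hy
    obtain ⟨h1, -⟩ := ball_log hF h0 hp hr hB hx
    refine ⟨{x | x ∈ M ∧ F x = 0} ∩ closedBall x r, ?_, ?_⟩
    · exact inter_mem_nhdsWithin _ hnb
    · rw [ae_restrict_iff' measurableSet_closedBall] at h1
      refine measure_mono_null ?_ h1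
      rintro z ⟨⟨-, hz⟩, hzB⟩ hc
      exact hc hzB hz
  · intro K hK hKc
    refine hKc.induction_on integrableOn_empty (fun _ _ huv hv => hv.mono_set huv)
      (fun _ _ h1 h2 => h1.union h2) fun y hy => ?_
    obtain ⟨x, r, hr, hB, hx, hnb⟩ := hloc y (hK hy)
    obtain ⟨-, h2⟩ := ball_log hF h0 hp hr hB hx
    exact ⟨closedBall x r, mem_nhdsWithin_of_mem_nhds hnb, h2⟩

end Pool.Agent.Helper9.Lin
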