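import Pool.Agent.Helper95.Lin.GoalsG
import Pool.Agent.Helper95.Lin.Basics

/-! # Packet EXTR: an extremal family is extremal everywhere -/

open Complex Metric Set Filter Topology MeasureTheory
open scoped ContDiff ComplexConjugate ComplexOrder

namespace Pool.Agent.Helper9.Lin

open Pool.Agent.Helper95.Lin

theorem prod_diff {b : ℕ} {ι : Type*} (u : Finset ι) {D : Set (Cn b)} {g : ι → Cn b → ℂ}
    (h : ∀ i, DifferentiableOn ℂ (g i) D) : DifferentiableOn ℂ (fun z => ∏ i ∈ u, g i z) D := by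
  classical
  induction u using Finset.induction_on with
  | empty => simp
  | insert i s hi ih =>
    simp only [Finset.prod_insert hi]
    exact (h i).mul ih

theorem vm_det_diff {b m : ℕ} {D : Set (Cn b)} (hD : IsOpen D) {V : Fin m → Cn b → Cn b}
    (hV : ∀ i, DifferentiableOn ℂ (V i) D) {f : Fin m → Cn b → ℂ} (hf : Adm D f) :
    DifferentiableOn ℂ (fun z => (vm V f z).det) D := by
  have h1 : ∀ i j, DifferentiableOn ℂ (fun z => vm V f z i j) D := by
    intro i j
    have h2 : DifferentiableOn ℂ (fun z => fderiv ℂ (f j) z (V i z)) D :=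
      (holo_fderiv hD (hf j).1).clm_apply (hV i)
    exact h2
  simp only [Matrix.det_apply]
  refine DifferentiableOn.fun_sum fun σ _ => ?_
  refine DifferentiableOn.const_smul ?_ _
  exact prod_diff Finset.univ fun i => h1 _ _

/-- A nonnegative continuous function on the circle with average zero vanishes. -/
theorem circle_zero {q : ℂ → ℝ} (hq : ContinuousOn q (sphere 0 1))
    (h0 : ∀ ζ ∈ sphere (0 : ℂ) 1, 0 ≤ q ζ) (hav : Real.circleAverage q 0 1 = 0) : q 1 = 0 := by
  by_contra hne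
  have h1 : (1 : ℂ) ∈ sphere (0 : ℂ) 1 := by simp
  have hpos : 0 < q 1 := lt_of_le_of_ne (h0 1 h1) (Ne.symm hne)
  have hpi : (0 : ℝ) < 2 * Real.pi := by positivity
  have hm : ∀ θ : ℝ, circleMap 0 1 θ ∈ sphere (0 : ℂ) 1 := fun θ =>
    circleMap_mem_sphere 0 zero_le_one θ
  have h2 : 0 < ∫ θ in (0 : ℝ)..2 * Real.pi, q (circleMap 0 1 θ) := by
    refine intervalIntegral.integral_pos hpi ?_ ?_ ?_
    · exact (hq.comp_continuous (continuous_circleMap 0 1) hm).continuousOn
    · exact fun θ _ => h0 _ (hm θ)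
    · refine ⟨0, ⟨le_rfl, hpi.le⟩, ?_⟩
      simpa [circleMap] using hpos
  rw [Real.circleAverage_def, smul_eq_mul] at hav
  have h3 : 0 < (2 * Real.pi)⁻¹ * ∫ θ in (0 : ℝ)..2 * Real.pi, q (circleMap 0 1 θ) :=
    mul_pos (by positivity) h2
  linarith

theorem extr (hCARC : S_CARC) : S_EXTR := by
  intro b m D hD V hV hpos hmean f hf z₀ hz₀ hz₀e
  obtain ⟨hbdd, -, hcont⟩ := hCARC D hD.isOpen V hV
  have hle : ∀ z ∈ D, ‖(vm V f z).det‖ ≤ carF D V z := fun z hz =>
    le_csSup (hbdd z hz) ⟨f, hf, rfl⟩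
  have hdiff := vm_det_diff hD.isOpen hV hf
  obtain ⟨h, hh⟩ : ∃ h : Cn b → ℂ, h = fun z => (vm V f z).det := ⟨_, rfl⟩
  have hhz : ∀ z, (vm V f z).det = h z := fun z => by rw [hh]
  rw [← hh] at hdiff
  simp only [hhz] at hz₀e hle ⊢
  obtain ⟨Z, hZ⟩ : ∃ Z : Set (Cn b), Z = {z | z ∈ D ∧ ‖h z‖ = carF D V z} := ⟨_, rfl⟩
  have hopen : IsOpen Z := by
    rw [Metric.isOpen_iff]
    intro z hz
    rw [hZ] at hz
    obtain ⟨hzD, hze⟩ := hz
    have hne : h z ≠ 0 := by
      rw [← norm_pos_iff, hze]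
      exact hpos z hzD
    -- a ball on which `h` does not vanish
    have hev : ∀ᶠ y in 𝓝 z, y ∈ D ∧ h y ≠ 0 := by
      have h1 := hD.isOpen.mem_nhds hzD
      have h2 := (hdiff.continuousOn.continuousAt h1).eventually_ne hne
      filter_upwards [h1, h2] with y hy1 hy2
      exact ⟨hy1, hy2⟩
    obtain ⟨r, hr, hball⟩ := Metric.eventually_nhds_iff_ball.1 hev
    refine ⟨r, hr, ?_⟩
    intro y hy
    obtain ⟨e, he⟩ : ∃ e : Cn b, e = y - z := ⟨_, rfl⟩
    have hy' : y = z + (1 : ℂ) • e := by rw [he, one_smul]; abel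
    have her : ‖e‖ < r := by
      rw [he, ← dist_eq_norm]
      exact hy
    have hin : ∀ ζ : ℂ, ‖ζ‖ ≤ 1 → z + ζ • e ∈ ball z r := by
      intro ζ hζ
      rw [mem_ball, dist_eq_norm, add_sub_cancel_left, norm_smul]
      calc ‖ζ‖ * ‖e‖ ≤ 1 * ‖e‖ := by gcongr
        _ < r := by rwa [one_mul]
    have hinD : ∀ ζ : ℂ, ‖ζ‖ ≤ 1 → z + ζ • e ∈ D := fun ζ hζ => (hball _ (hin ζ hζ)).1
    -- the circle average of `log |h|`
    have hU : IsOpen {ζ : ℂ | z + ζ • e ∈ ball z r} := isOpen_ball.preimage (by fun_prop)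
    have hg : DifferentiableOn ℂ (fun ζ : ℂ => h (z + ζ • e)) {ζ : ℂ | z + ζ • e ∈ ball z r} := by
      refine hdiff.comp (by fun_prop) ?_
      intro ζ hζ
      exact (hball _ hζ).1
    have hgan : AnalyticOnNhd ℂ (fun ζ : ℂ => h (z + ζ • e)) (closedBall 0 |1|) := by
      refine (hg.analyticOnNhd hU).mono ?_
      intro ζ hζ
      rw [abs_one, mem_closedBall_zero_iff] at hζ
      exact hin ζ hζ
    have hav1 : Real.circleAverage (fun ζ : ℂ => Real.log ‖h (z + ζ • e)‖) 0 1 =
        Real.log ‖h z‖ := by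
      have := hgan.circleAverage_log_norm_of_ne_zero (fun u hu => by
        rw [abs_one, mem_closedBall_zero_iff] at hu
        exact (hball _ (hin u hu)).2)
      simpa using this
    have hav2 := hmean z hzD e hinD
    have hcF : ContinuousOn (fun ζ : ℂ => Real.log (carF D V (z + ζ • e))) (sphere 0 1) := by
      refine ContinuousOn.log ?_ ?_
      · refine hcont.comp (by fun_prop) ?_
        intro ζ hζ
        rw [mem_sphere_zero_iff_norm] at hζ
        exact hinD ζ hζ.le
      · intro ζ hζ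
        rw [mem_sphere_zero_iff_norm] at hζ
        exact (hpos _ (hinD ζ hζ.le)).ne'
    have hch : ContinuousOn (fun ζ : ℂ => Real.log ‖h (z + ζ • e)‖) (sphere 0 1) := by
      refine ContinuousOn.log ?_ ?_
      · refine (hdiff.continuousOn.comp (by fun_prop) ?_).norm
        intro ζ hζ
        rw [mem_sphere_zero_iff_norm] at hζ
        exact hinD ζ hζ.le
      · intro ζ hζ
        rw [mem_sphere_zero_iff_norm] at hζ
        exact norm_ne_zero_iff.2 (hball _ (hin ζ hζ.le)).2
    have hci1 : CircleIntegrable (fun ζ : ℂ => Real.log (carF D V (z + ζ • e))) 0 1 :=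
      hcF.circleIntegrable zero_le_one
    have hci2 : CircleIntegrable (fun ζ : ℂ => Real.log ‖h (z + ζ • e)‖) 0 1 :=
      hch.circleIntegrable zero_le_one
    have hzero := circle_zero (q := fun ζ : ℂ => Real.log (carF D V (z + ζ • e)) -
      Real.log ‖h (z + ζ • e)‖) (hcF.sub hch) (by
        intro ζ hζ
        rw [mem_sphere_zero_iff_norm] at hζ
        have h1 : 0 < ‖h (z + ζ • e)‖ := norm_pos_iff.2 (hball _ (hin ζ hζ.le)).2
        have h2 := Real.log_le_log h1 (hle _ (hinD ζ hζ.le))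
        simpa using h2) (by
        rw [Real.circleAverage_fun_sub hci1 hci2, hav1, ← hav2, hze]
        simp)
    simp only [← hy'] at hzero
    have hyD : y ∈ D := (hball y hy).1
    have h1 : 0 < ‖h y‖ := norm_pos_iff.2 (hball y hy).2
    rw [hZ]
    refine ⟨hyD, ?_⟩
    have h2 : Real.log ‖h y‖ = Real.log (carF D V y) := by linarith
    exact Real.log_injOn_pos h1 (hpos y hyD) h2
  have hsub : D ⊆ Z := by
    refine hD.conn.isPreconnected.subset_of_closure_inter_subset hopen ?_ ?_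
    · exact ⟨z₀, hz₀, by rw [hZ]; exact ⟨hz₀, hz₀e⟩⟩
    · rintro y ⟨hyc, hyD⟩
      rw [hZ]
      refine ⟨hyD, ?_⟩
      have hnb := hD.isOpen.mem_nhds hyD
      have c1 : ContinuousAt (fun z => ‖h z‖ - carF D V z) y :=
        ((hdiff.continuousOn.continuousAt hnb).norm).sub (hcont.continuousAt hnb)
      have h3 : (fun z => ‖h z‖ - carF D V z) y = 0 := by
        by_contra hne
        have h4 := c1.eventually_ne hne
        rw [mem_closure_iff_nhds] at hyc
        obtain ⟨w, hw1, hw2⟩ := hyc _ h4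
        rw [hZ] at hw2
        apply hw1
        simp [hw2.2]
      simp only at h3
      linarith
  intro z hz
  have := hsub hz
  rw [hZ] at this
  exact this.2

end Pool.Agent.Helper9.Lin
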